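import Pool.Agent.Run7.h543.DEP.Stm

/-!
# Piece CON of project DEP (helper543): the lazy random walk (helper299)
-/

set_option autoImplicit false
set_option linter.unusedSectionVars false

namespace Run7.h299.DEP

open Finset Matrix Run7.h543.DEP

section
variable {V : Type} [Fintype V] [DecidableEq V]

theorem en_le {t : V → V → ℝ} {D : ℝ} (ht : IsHopping t D) (f : V → ℝ) :
    ∑ x, ∑ y, t x y * (f y - f x) ^ 2 / 2 ≤ 2 * D * ∑ x, f x ^ 2 := by
  have h1 : ∑ x, ∑ y, t x y * (f y - f x) ^ 2 / 2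
      ≤ ∑ x, ∑ y, (t x y * f x ^ 2 + t x y * f y ^ 2) := by
    refine sum_le_sum fun x _ => sum_le_sum fun y _ => ?_
    nlinarith [mul_nonneg (ht.nonneg x y) (sq_nonneg (f y + f x))]
  have h2 : ∑ x, ∑ y, t x y * f y ^ 2 = ∑ x, ∑ y, t x y * f x ^ 2 := by
    rw [sum_comm]
    refine sum_congr rfl fun x _ => sum_congr rfl fun y _ => ?_
    rw [ht.symm]
  have h3 : ∑ x, ∑ y, t x y * f x ^ 2 ≤ D * ∑ x, f x ^ 2 := by
    rw [mul_sum]
    refine sum_le_sum fun x _ => ?_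
    rw [← sum_mul]
    exact mul_le_mul_of_nonneg_right (ht.row x) (sq_nonneg _)
  simp only [sum_add_distrib] at h1
  linarith

theorem lap_mulVec (t : V → V → ℝ) (f : V → ℝ) (x : V) :
    (lap t *ᵥ f) x = ∑ y, t x y * (f x - f y) := by
  simp only [Matrix.mulVec, dotProduct, lap, sub_mul, ite_mul, zero_mul, sum_sub_distrib,
    sum_ite_eq, mem_univ, if_true, mul_sub, ← sum_mul]

theorem lap_form {t : V → V → ℝ} {D : ℝ} (ht : IsHopping t D) (f : V → ℝ) :
    f ⬝ᵥ (lap t *ᵥ f) = ∑ x, ∑ y, t x y * (f y - f x) ^ 2 / 2 := by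
  have h2 : ∑ x, ∑ y, t x y * f y ^ 2 = ∑ x, ∑ y, t x y * f x ^ 2 := by
    rw [sum_comm]
    refine sum_congr rfl fun x _ => sum_congr rfl fun y _ => ?_
    rw [ht.symm]
  have e1 : f ⬝ᵥ (lap t *ᵥ f) = ∑ x, ∑ y, t x y * f x ^ 2 - ∑ x, ∑ y, t x y * (f x * f y) := by
    simp only [dotProduct, lap_mulVec, mul_sum, ← sum_sub_distrib]
    refine sum_congr rfl fun x _ => sum_congr rfl fun y _ => ?_
    ring
  have e2 : ∑ x, ∑ y, t x y * (f y - f x) ^ 2 / 2 = (∑ x, ∑ y, t x y * f y ^ 2) / 2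
      + (∑ x, ∑ y, t x y * f x ^ 2) / 2 - ∑ x, ∑ y, t x y * (f x * f y) := by
    simp only [sum_div, ← sum_add_distrib, ← sum_sub_distrib]
    refine sum_congr rfl fun x _ => sum_congr rfl fun y _ => ?_
    ring
  rw [e1, e2, h2]
  ring

theorem walk_mulVec (t : V → V → ℝ) (D : ℝ) (f : V → ℝ) :
    walk t D *ᵥ f = f - (1 / (2 * D)) • (lap t *ᵥ f) := by
  unfold walk
  rw [Matrix.sub_mulVec, Matrix.one_mulVec, Matrix.smul_mulVec]

theorem walk_form {t : V → V → ℝ} {D : ℝ} (ht : IsHopping t D) (f : V → ℝ) :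
    f ⬝ᵥ (walk t D *ᵥ f) = ∑ x, f x ^ 2 -
      1 / (2 * D) * ∑ x, ∑ y, t x y * (f y - f x) ^ 2 / 2 := by
  rw [walk_mulVec, dotProduct_sub, dotProduct_smul, lap_form ht, smul_eq_mul]
  congr 1
  simp only [dotProduct]
  refine sum_congr rfl fun x _ => ?_
  ring

theorem walk_psd {t : V → V → ℝ} {D : ℝ} (hD : 0 < D) (ht : IsHopping t D) (f : V → ℝ) :
    0 ≤ f ⬝ᵥ (walk t D *ᵥ f) := by
  rw [walk_form ht]
  have h := en_le ht f
  have h2 : 1 / (2 * D) * ∑ x, ∑ y, t x y * (f y - f x) ^ 2 / 2 ≤ 1 / (2 * D) * (2 * D * ∑ x, f x ^ 2) :=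
    mul_le_mul_of_nonneg_left h (by positivity)
  have h3 : 1 / (2 * D) * (2 * D * ∑ x, f x ^ 2) = ∑ x, f x ^ 2 := by
    field_simp
  linarith

theorem walk_symm {t : V → V → ℝ} {D : ℝ} (ht : IsHopping t D) : (walk t D)ᵀ = walk t D := by
  ext x y
  simp only [walk, Matrix.transpose_apply, Matrix.sub_apply, Matrix.smul_apply, Matrix.one_apply,
    lap, smul_eq_mul, ht.symm y x]
  by_cases h : x = y
  · subst h
    simp
  · rw [if_neg h, if_neg (fun h' => h h'.symm), if_neg h, if_neg (fun h' => h h'.symm)]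

theorem pow_symm {t : V → V → ℝ} {D : ℝ} (ht : IsHopping t D) (k : ℕ) :
    (walk t D ^ k)ᵀ = walk t D ^ k := by
  rw [Matrix.transpose_pow, walk_symm ht]

theorem adj {M : Matrix V V ℝ} (hM : Mᵀ = M) (f h : V → ℝ) :
    f ⬝ᵥ (M *ᵥ h) = (M *ᵥ f) ⬝ᵥ h := by
  rw [Matrix.dotProduct_mulVec, ← Matrix.mulVec_transpose, hM]

theorem pow_psd {t : V → V → ℝ} {D : ℝ} (hD : 0 < D) (ht : IsHopping t D) (k : ℕ) :
    ∀ f : V → ℝ, 0 ≤ f ⬝ᵥ ((walk t D ^ k) *ᵥ f) := by
  induction k using Nat.twoStepInduction with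
  | zero =>
    intro f
    rw [pow_zero, Matrix.one_mulVec]
    exact sum_nonneg fun x _ => mul_self_nonneg _
  | one =>
    intro f
    rw [pow_one]
    exact walk_psd hD ht f
  | more k ih _ =>
    intro f
    have e : walk t D ^ (k + 2) = walk t D * (walk t D ^ k * walk t D) := by
      rw [← pow_succ, ← pow_succ']
    rw [e, ← Matrix.mulVec_mulVec, adj (walk_symm ht), ← Matrix.mulVec_mulVec]
    exact ih _

theorem walk_nonneg {t : V → V → ℝ} {D : ℝ} (hD : 0 < D) (ht : IsHopping t D) (x y : V) :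
    0 ≤ walk t D x y := by
  simp only [walk, Matrix.sub_apply, Matrix.smul_apply, Matrix.one_apply, lap, smul_eq_mul]
  by_cases h : x = y
  · subst h
    rw [if_pos rfl, if_pos rfl]
    have h1 := ht.row x
    have h2 := ht.nonneg x x
    have h3 : 1 / (2 * D) * (∑ z, t x z - t x x) ≤ 1 / (2 * D) * D :=
      mul_le_mul_of_nonneg_left (by linarith) (by positivity)
    have h4 : 1 / (2 * D) * D = 1 / 2 := by
      field_simp
    linarith
  · rw [if_neg h, if_neg h]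
    have h2 := ht.nonneg x y
    have : 0 ≤ 1 / (2 * D) * t x y := by positivity
    linarith

theorem walk_row (t : V → V → ℝ) (D : ℝ) (x : V) : ∑ y, walk t D x y = 1 := by
  simp only [walk, Matrix.sub_apply, Matrix.smul_apply, Matrix.one_apply, lap, smul_eq_mul,
    sum_sub_distrib, ← mul_sum]
  simp

theorem pow_nonneg' {t : V → V → ℝ} {D : ℝ} (hD : 0 < D) (ht : IsHopping t D) (k : ℕ) :
    ∀ x y : V, 0 ≤ (walk t D ^ k) x y := by
  induction k with
  | zero =>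
    intro x y
    rw [pow_zero, Matrix.one_apply]
    split_ifs <;> norm_num
  | succ k ih =>
    intro x y
    rw [pow_succ, Matrix.mul_apply]
    exact sum_nonneg fun z _ => mul_nonneg (ih x z) (walk_nonneg hD ht z y)

theorem pow_row (t : V → V → ℝ) (D : ℝ) (k : ℕ) : ∀ x : V, ∑ y, (walk t D ^ k) x y = 1 := by
  induction k with
  | zero =>
    intro x
    simp [Matrix.one_apply]
  | succ k ih =>
    intro x
    simp only [pow_succ, Matrix.mul_apply]
    rw [sum_comm]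
    simp only [← mul_sum, walk_row, mul_one]
    exact ih x

theorem pow_single (M : Matrix V V ℝ) (x y : V) :
    (Pi.single x (1 : ℝ)) ⬝ᵥ (M *ᵥ (Pi.single y (1 : ℝ))) = M x y := by
  simp

theorem pow_half {t : V → V → ℝ} {D : ℝ} (hD : 0 < D) (ht : IsHopping t D) (k : ℕ) (x y : V) :
    2 * (walk t D ^ k) x y ≤ (walk t D ^ k) x x + (walk t D ^ k) y y := by
  have h := pow_psd hD ht k (Pi.single x 1 - Pi.single y 1)
  rw [Matrix.mulVec_sub, dotProduct_sub, sub_dotProduct, sub_dotProduct, pow_single, pow_single,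
    pow_single, pow_single] at h
  have hs : (walk t D ^ k) y x = (walk t D ^ k) x y := by
    conv_lhs => rw [← pow_symm ht k]
    rfl
  linarith

theorem gap_le {t : V → V → ℝ} {D g : ℝ} (hn : 2 ≤ Fintype.card V) (ht : IsHopping t D)
    (hg : HasGapT t g) : g ≤ 2 * D := by
  obtain ⟨x, y, hxy⟩ := Fintype.exists_pair_of_one_lt_card (by omega : 1 < Fintype.card V)
  have h0 : ∑ z, (Pi.single x (1 : ℝ) - Pi.single y 1 : V → ℝ) z = 0 := by
    simp [sum_sub_distrib]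
  have h1 := hg _ h0
  have h2 := en_le ht (Pi.single x (1 : ℝ) - Pi.single y 1 : V → ℝ)
  have h3 : ∑ z, (Pi.single x (1 : ℝ) - Pi.single y 1 : V → ℝ) z ^ 2 = 2 := by
    have e : ∀ z, (Pi.single x (1 : ℝ) - Pi.single y 1 : V → ℝ) z ^ 2
        = (Pi.single x (1 : ℝ) : V → ℝ) z + (Pi.single y (1 : ℝ) : V → ℝ) z := by
      intro z
      by_cases hx : z = x
      · subst hx
        simp [Pi.sub_apply, hxy]
      · by_cases hy : z = y
        · subst hy
          simp [Pi.sub_apply, hx]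
        · simp [Pi.sub_apply, hx, hy]
    simp only [e, sum_add_distrib]
    simp
    norm_num
  rw [h3] at h1 h2
  linarith

theorem contr {t : V → V → ℝ} {D g : ℝ} (hD : 0 < D) (hn : 2 ≤ Fintype.card V)
    (ht : IsHopping t D) (hg : HasGapT t g) (f : V → ℝ) (hf : ∑ x, f x = 0) :
    ∑ x, (walk t D *ᵥ f) x = 0 ∧
    (walk t D *ᵥ f) ⬝ᵥ (walk t D *ᵥ f) ≤ (1 - g / (2 * D)) ^ 2 * (f ⬝ᵥ f) := by
  have hgD := gap_le hn ht hg
  have hθ0 : 0 ≤ 1 - g / (2 * D) := by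
    rw [sub_nonneg, div_le_one (by positivity)]
    exact hgD
  have hform : ∀ w : V → ℝ, ∑ x, w x = 0 → w ⬝ᵥ (walk t D *ᵥ w) ≤ (1 - g / (2 * D)) * (w ⬝ᵥ w) := by
    intro w hw
    have h1 := hg w hw
    have h2 : 1 / (2 * D) * (g * ∑ x, w x ^ 2) ≤
        1 / (2 * D) * ∑ x, ∑ y, t x y * (w y - w x) ^ 2 / 2 :=
      mul_le_mul_of_nonneg_left h1 (by positivity)
    have h3 : w ⬝ᵥ w = ∑ x, w x ^ 2 := by
      simp only [dotProduct]
      exact sum_congr rfl fun x _ => by ring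
    rw [walk_form ht, h3]
    have h4 : 1 / (2 * D) * (g * ∑ x, w x ^ 2) = g / (2 * D) * ∑ x, w x ^ 2 := by ring
    rw [h4] at h2
    linarith
  have hs : ∑ x, (walk t D *ᵥ f) x = 0 := by
    have e1 : ∑ x, (walk t D *ᵥ f) x = (1 : V → ℝ) ⬝ᵥ (walk t D *ᵥ f) := by
      simp [dotProduct]
    have e2 : walk t D *ᵥ (1 : V → ℝ) = 1 := by
      funext x
      simp only [Matrix.mulVec, dotProduct, Pi.one_apply, mul_one]
      exact walk_row t D x
    rw [e1, adj (walk_symm ht), e2]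
    simpa [dotProduct] using hf
  refine ⟨hs, ?_⟩
  set u := walk t D *ᵥ f with hu
  set θ := 1 - g / (2 * D) with hθ
  have ha := hform f hf
  have hc := hform u hs
  rw [← hu] at ha
  -- `b = ⟨f, P u⟩ = ⟨u, u⟩`
  have hb : f ⬝ᵥ (walk t D *ᵥ u) = u ⬝ᵥ u := by
    rw [adj (walk_symm ht)]
  have hb' : u ⬝ᵥ (walk t D *ᵥ f) = u ⬝ᵥ u := rfl
  have hff : 0 ≤ f ⬝ᵥ f := sum_nonneg fun x _ => mul_self_nonneg _
  have huu : 0 ≤ u ⬝ᵥ u := sum_nonneg fun x _ => mul_self_nonneg _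
  have hgen : ∀ r : ℝ, 0 ≤ r ^ 2 * (f ⬝ᵥ u) - 2 * r * (u ⬝ᵥ u) + u ⬝ᵥ (walk t D *ᵥ u) := by
    intro r
    have h := walk_psd hD ht (r • f - u)
    rw [Matrix.mulVec_sub, Matrix.mulVec_smul, dotProduct_sub, sub_dotProduct, sub_dotProduct,
      smul_dotProduct, smul_dotProduct, dotProduct_smul, dotProduct_smul, ← hu, hb] at h
    simp only [smul_eq_mul] at h
    linarith
  rcases hθ0.eq_or_lt with h0 | h0
  · have h := hgen 1
    rw [← h0] at ha hc ⊢
    have h5 : (0 : ℝ) ^ 2 * (f ⬝ᵥ f) = 0 := by ring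
    linarith
  · have h := hgen θ
    have h6 : θ * (u ⬝ᵥ u) ≤ θ * (θ * (f ⬝ᵥ u)) := by
      have : θ ^ 2 * (f ⬝ᵥ u) = θ * (θ * (f ⬝ᵥ u)) := by ring
      linarith
    have h7 := le_of_mul_le_mul_left h6 h0
    calc u ⬝ᵥ u ≤ θ * (f ⬝ᵥ u) := h7
      _ ≤ θ * (θ * (f ⬝ᵥ f)) := mul_le_mul_of_nonneg_left ha h0.le
      _ = θ ^ 2 * (f ⬝ᵥ f) := by ring

theorem contr_pow {t : V → V → ℝ} {D g : ℝ} (hD : 0 < D) (hn : 2 ≤ Fintype.card V)
    (ht : IsHopping t D) (hg : HasGapT t g) (k : ℕ) : ∀ f : V → ℝ, ∑ x, f x = 0 →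
    ((walk t D ^ k) *ᵥ f) ⬝ᵥ ((walk t D ^ k) *ᵥ f) ≤ ((1 - g / (2 * D)) ^ k) ^ 2 * (f ⬝ᵥ f) := by
  induction k with
  | zero =>
    intro f _
    simp
  | succ k ih =>
    intro f hf
    obtain ⟨h1, h2⟩ := contr hD hn ht hg f hf
    have h3 := ih _ h1
    rw [pow_succ, ← Matrix.mulVec_mulVec]
    refine h3.trans ?_
    calc ((1 - g / (2 * D)) ^ k) ^ 2 * ((walk t D *ᵥ f) ⬝ᵥ (walk t D *ᵥ f))
        ≤ ((1 - g / (2 * D)) ^ k) ^ 2 * ((1 - g / (2 * D)) ^ 2 * (f ⬝ᵥ f)) :=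
          mul_le_mul_of_nonneg_left h2 (sq_nonneg _)
      _ = _ := by ring

theorem form_eq (M : Matrix V V ℝ) (f h : V → ℝ) :
    ∑ x, ∑ y, f x * M x y * h y = f ⬝ᵥ (M *ᵥ h) := by
  simp only [dotProduct, Matrix.mulVec, mul_sum, mul_assoc]

theorem contr_form {t : V → V → ℝ} {D g : ℝ} (hD : 0 < D) (hn : 2 ≤ Fintype.card V)
    (ht : IsHopping t D) (hg : HasGapT t g) (k : ℕ) (f h : V → ℝ) (hf : ∑ x, f x = 0) :
    ∑ x, ∑ y, f x * (walk t D ^ k) x y * h y ≤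
    (1 - g / (2 * D)) ^ k * Real.sqrt (∑ x, f x ^ 2) * Real.sqrt (∑ x, h x ^ 2) := by
  have hgD := gap_le hn ht hg
  have hθ0 : 0 ≤ 1 - g / (2 * D) := by
    rw [sub_nonneg, div_le_one (by positivity)]
    exact hgD
  rw [form_eq, adj (pow_symm ht k)]
  have h1 := contr_pow hD hn ht hg k f hf
  have e1 : ((walk t D ^ k) *ᵥ f) ⬝ᵥ ((walk t D ^ k) *ᵥ f) = ∑ x, ((walk t D ^ k) *ᵥ f) x ^ 2 := by
    simp only [dotProduct]
    exact sum_congr rfl fun x _ => by ring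
  have e2 : f ⬝ᵥ f = ∑ x, f x ^ 2 := by
    simp only [dotProduct]
    exact sum_congr rfl fun x _ => by ring
  rw [e1, e2] at h1
  have h2 : ((walk t D ^ k) *ᵥ f) ⬝ᵥ h ≤ Real.sqrt (∑ x, ((walk t D ^ k) *ᵥ f) x ^ 2) *
      Real.sqrt (∑ x, h x ^ 2) := Real.sum_mul_le_sqrt_mul_sqrt _ _ _
  refine h2.trans ?_
  apply mul_le_mul_of_nonneg_right _ (Real.sqrt_nonneg _)
  calc Real.sqrt (∑ x, ((walk t D ^ k) *ᵥ f) x ^ 2)
      ≤ Real.sqrt (((1 - g / (2 * D)) ^ k) ^ 2 * ∑ x, f x ^ 2) := Real.sqrt_le_sqrt h1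
    _ = (1 - g / (2 * D)) ^ k * Real.sqrt (∑ x, f x ^ 2) := by
        rw [Real.sqrt_mul (sq_nonneg _), Real.sqrt_sq (by positivity)]

theorem pow_diag {t : V → V → ℝ} {D g : ℝ} (hD : 0 < D) (hn : 2 ≤ Fintype.card V)
    (ht : IsHopping t D) (hg : HasGapT t g) (k : ℕ) (x : V) :
    (walk t D ^ k) x x ≤ 1 / Fintype.card V + (1 - g / (2 * D)) ^ k := by
  have hgD := gap_le hn ht hg
  have hθ0 : 0 ≤ 1 - g / (2 * D) := by
    rw [sub_nonneg, div_le_one (by positivity)]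
    exact hgD
  have hn0 : (0 : ℝ) < Fintype.card V := by
    have : 0 < Fintype.card V := by omega
    exact_mod_cast this
  set c : ℝ := 1 / (Fintype.card V : ℝ) with hc
  have hc1 : c * Fintype.card V = 1 := by
    rw [hc]
    field_simp
  have hc0 : 0 ≤ c := by positivity
  set f : V → ℝ := Pi.single x 1 - fun _ => c with hf
  have hf0 : ∑ y, f y = 0 := by
    simp only [hf, Pi.sub_apply, sum_sub_distrib, sum_const, card_univ, nsmul_eq_mul]
    simp only [Finset.sum_pi_single', mem_univ, if_true]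
    linarith
  have h := contr_form hD hn ht hg k f f hf0
  rw [form_eq, mul_assoc, Real.mul_self_sqrt (sum_nonneg fun y _ => sq_nonneg _)] at h
  have e1 : (walk t D ^ k) *ᵥ (fun _ => c) = fun _ => c := by
    funext y
    simp only [Matrix.mulVec, dotProduct, ← sum_mul, pow_row, one_mul]
  have e2 : f ⬝ᵥ ((walk t D ^ k) *ᵥ f) = (walk t D ^ k) x x - c := by
    rw [hf, Matrix.mulVec_sub, dotProduct_sub, sub_dotProduct, e1, pow_single, ← hf]
    have e3 : f ⬝ᵥ (fun _ => c) = 0 := by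
      simp only [dotProduct, ← sum_mul, hf0, zero_mul]
    have e4 : (fun _ => c) ⬝ᵥ ((walk t D ^ k) *ᵥ Pi.single x 1) = c := by
      rw [adj (pow_symm ht k), e1]
      simp
    rw [e3, e4]
    ring
  have e5 : ∑ y, f y ^ 2 ≤ 1 := by
    have e6 : ∀ y, f y ^ 2 = (1 - 2 * c) * (Pi.single x (1 : ℝ) : V → ℝ) y + c ^ 2 := by
      intro y
      by_cases hy : y = x
      · subst hy
        simp only [hf, Pi.sub_apply, Pi.single_eq_same]
        ring
      · simp only [hf, Pi.sub_apply, Pi.single_eq_of_ne hy]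
        ring
    simp only [e6, sum_add_distrib, ← mul_sum, sum_const, card_univ, nsmul_eq_mul]
    simp only [Finset.sum_pi_single', mem_univ, if_true]
    have e7 : (Fintype.card V : ℝ) * c ^ 2 = c := by
      calc (Fintype.card V : ℝ) * c ^ 2 = (c * Fintype.card V) * c := by ring
        _ = c := by rw [hc1, one_mul]
    rw [e7]
    linarith
  rw [e2] at h
  have h8 : (1 - g / (2 * D)) ^ k * ∑ y, f y ^ 2 ≤ (1 - g / (2 * D)) ^ k * 1 :=
    mul_le_mul_of_nonneg_left e5 (by positivity)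
  linarith

end

theorem t_CON : S_CON := by
  intro V _ _ t D g hD _ hn ht hg
  refine ⟨fun k x y => ?_, fun k x y => pow_nonneg' hD ht k x y, fun k x => pow_row t D k x,
    fun k x y => pow_half hD ht k x y, gap_le hn ht hg,
    fun k f h hf => contr_form hD hn ht hg k f h hf, fun k x => pow_diag hD hn ht hg k x⟩
  conv_lhs => rw [← pow_symm ht k]
  rfl

end Run7.h299.DEP
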